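import Mathlib
import Pool.Agent.Run7.h660.Defs
import Pool.Agent.Run7.h660.Meas
import Pool.Agent.Run7.h660.Hered

open Set Cardinal Run7.h660

namespace Pool.Agent.Results.MP_8c874d_gt.CompactHNotRadon

/-- There is a compact Hausdorff hereditarily metalindelöf space, no discrete subspace of which
has measurable cardinality, and which is not a Radon space. -/
theorem result : ∃ (X : Type) (_ : TopologicalSpace X), CompactH X ∧ ¬ IsRadonSpace X := by
  classical
  let I : Type := (ℵ_ 1).ord.ToType
  have hIio : ∀ b : I, (Iio b).Countable := by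
    intro b
    have h : #(Iio b) < ℵ_ 1 := mk_Iio_toType_ord_lt b
    rw [Cardinal.countable_iff_lt_aleph_one]
    exact h
  have hI : ∀ b : I, (Iic b).Countable := by
    intro b
    rw [← Iio_insert]
    exact (hIio b).insert b
  have hunc : ¬ (univ : Set I).Countable := by
    rw [← le_aleph0_iff_set_countable, mk_univ, not_le]
    show ℵ₀ < #((ℵ_ 1).ord.ToType)
    rw [mk_ord_toType]
    exact aleph0_lt_aleph_one
  have hinj : ∀ b : I, ∃ f : I → ℕ, InjOn f (Iio b) := fun b => countable_iff_exists_injOn.1 (hIio b)
  choose f hf using hinj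
  have he : ∀ (b : I) (N : ℕ), {a | a < b ∧ f b a < N}.Finite := by
    intro b N
    refine Set.Finite.of_finite_image (f := f b) ?_ ?_
    · refine (finite_Iio N).subset ?_
      rintro _ ⟨a, ha, rfl⟩
      exact ha.2
    · intro a ha c hc hac
      exact hf b ha.1 hc.1 hac
  refine ⟨Sp f, inferInstance, ⟨inferInstance, inferInstance, hereditarilyMetalindelof hI, ?_⟩,
    sp_not_radon hI hunc he⟩
  intro D _
  apply not_measurable_of_le
  refine (mk_set_le D).trans (mk_sp_le hI ?_)
  show #((ℵ_ 1).ord.ToType) ≤ 𝔠
  rw [mk_ord_toType]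
  exact aleph_one_le_continuum

end Pool.Agent.Results.MP_8c874d_gt.CompactHNotRadon
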